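import Pool.Agent.Y453.UF.Stm3

/-! UF-TQ2: the two-dimensional piece. -/

set_option autoImplicit false

namespace Pool.Agent.Y441.UF.TQ2

open Finset Matrix Pool.Agent.Y453.UF

/-- minus the skew form `aln 0` -/
def A : Matrix (Fin 8) (Fin 8) ℤ := fun p q => -aln 0 p q

/-- its inverse -/
def B : Matrix (Fin 8) (Fin 8) ℤ :=
  !![0, 0, 0, 1, 0, 0, 0, 0; 0, 0, 1, 0, 0, 0, 0, 0; 0, -1, 0, 1, 0, 0, 0, 0;
    -1, 0, -1, 0, 0, 0, 0, 0; 0, 0, 0, 0, 0, 0, 0, 1; 0, 0, 0, 0, 0, 0, 1, 0;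
    0, 0, 0, 0, 0, -1, 0, 1; 0, 0, 0, 0, -1, 0, -1, 0]

theorem AB : A * B = 1 := by decide +kernel

theorem BA : B * A = 1 := by decide +kernel

theorem skew (p q : Fin 8) : A q p = -A p q := by
  revert p q
  decide +kernel

/-- the hyperbolic form -/
theorem gram_eval (u v : (Fin 2 × Fin 8) ⊕ (Fin 8 × Fin 0) → ℤ) :
    u ⬝ᵥ (Y453.UF.gram 8 0 1).mulVec v = ∑ p, (u (Sum.inl (0, p)) * v (Sum.inl (1, p)) +
      u (Sum.inl (1, p)) * v (Sum.inl (0, p))) := by
  unfold Y453.UF.gram Matrix.mulVec dotProduct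
  rw [Fintype.sum_sum_type, Fintype.sum_prod_type, Fin.sum_univ_two, ← Finset.sum_add_distrib]
  simp [Fintype.sum_sum_type, Fintype.sum_prod_type, Matrix.blockDiagonal_apply,
    Finset.sum_ite_eq, Fin.sum_univ_two]

/-- the isomorphism -/
def f : (Fin 8 → Fin 2 → ℤ) ≃+ ((Fin 2 × Fin 8) ⊕ (Fin 8 × Fin 0) → ℤ) where
  toFun X := Sum.elim (fun ij => if ij.1 = 0 then X ij.2 0 else (A.mulVec fun p => X p 1) ij.2)
    (fun ij => ij.2.elim0)
  invFun g := fun p q => if q = 0 then g (Sum.inl (0, p)) else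
    (B.mulVec fun p' => g (Sum.inl (1, p'))) p
  left_inv X := by
    funext p q
    have h := congrFun (Matrix.mulVec_mulVec (fun p => X p 1) B A) p
    rw [BA, Matrix.one_mulVec] at h
    fin_cases q
    · simp
    · simpa using h
  right_inv g := by
    funext i
    rcases i with ⟨a, p⟩ | ⟨a, p⟩
    · have h := congrFun (Matrix.mulVec_mulVec (fun p => g (Sum.inl (1, p))) A B) p
      rw [AB, Matrix.one_mulVec] at h
      fin_cases a
      · simp
      · simpa using h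
    · exact p.elim0
  map_add' X Y := by
    funext i
    rcases i with ⟨a, p⟩ | ⟨a, p⟩
    · fin_cases a
      · simp
      · exact congrFun (Matrix.mulVec_add A (fun p => X p 1) (fun p => Y p 1)) p
    · exact p.elim0

theorem f0 (X : Fin 8 → Fin 2 → ℤ) (p : Fin 8) : f X (Sum.inl (0, p)) = X p 0 := rfl

theorem f1 (X : Fin 8 → Fin 2 → ℤ) (p : Fin 8) :
    f X (Sum.inl (1, p)) = ∑ p', A p p' * X p' 1 := rfl

/-- the two-by-two skew matrix -/
def J : AltM (Fin 2) := ⟨fun i j => !![0, 1; -1, 0] i j, by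
  intro i j
  fin_cases i <;> fin_cases j <;> rfl⟩

theorem tq2 : S_TQ2 := by
  refine ⟨![J, 0, 0], f, fun X Y => ?_⟩
  rw [gram_eval]
  simp only [f0, f1, Fin.sum_univ_three]
  have e0 : (![J, 0, 0] : Fin 3 → AltM (Fin 2)) 0 = J := rfl
  have e1 : (![J, 0, 0] : Fin 3 → AltM (Fin 2)) 1 = 0 := rfl
  have e2 : (![J, 0, 0] : Fin 3 → AltM (Fin 2)) 2 = 0 := rfl
  rw [e0, e1, e2]
  have hJ : ∀ q q', (J : Fin 2 → Fin 2 → ℤ) q q' = !![0, 1; -1, 0] q q' := fun _ _ => rfl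
  have hz : ((0 : AltM (Fin 2)) : Fin 2 → Fin 2 → ℤ) = 0 := rfl
  simp only [hz, Pi.zero_apply, mul_zero, zero_mul, Finset.sum_const_zero, add_zero, hJ,
    Fin.sum_univ_two]
  rw [← Finset.sum_neg_distrib, Finset.sum_add_distrib]
  have h2 : ∑ p, (∑ p', A p p' * X p' 1) * Y p 0 = ∑ p, ∑ p', -(A p p' * X p 1 * Y p' 0) := by
    simp only [Finset.sum_mul]
    rw [Finset.sum_comm]
    refine Finset.sum_congr rfl fun p _ => Finset.sum_congr rfl fun p' _ => ?_
    rw [skew]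
    ring
  rw [h2, ← Finset.sum_add_distrib]
  refine Finset.sum_congr rfl fun p _ => ?_
  rw [Finset.mul_sum, ← Finset.sum_add_distrib, ← Finset.sum_add_distrib,
    ← Finset.sum_neg_distrib]
  refine Finset.sum_congr rfl fun p' _ => ?_
  simp only [A, Matrix.of_apply, Matrix.cons_val', Matrix.cons_val_zero, Matrix.cons_val_one,
    Matrix.cons_val_fin_one]
  ring

end Pool.Agent.Y441.UF.TQ2
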